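import Pool.Agent.TFJ.Stmts

/-!
# TFJ, row STA: the star function
-/

set_option autoImplicit false

namespace Pool.Agent.TFJ.H77

open Pool.Agent.TFJ

theorem bdd {E : Type} [MetricSpace E] {f : E → ℝ} (hf : Adm f) (x : E) :
    BddAbove (Set.range fun z => dist x z - f z) := by
  refine ⟨f x, ?_⟩
  rintro _ ⟨z, rfl⟩
  have h := hf x z
  show dist x z - f z ≤ f x
  linarith

theorem le_st {E : Type} [MetricSpace E] {f : E → ℝ} (hf : Adm f) (x z : E) :
    dist x z - f z ≤ st f x := le_ciSup (bdd hf x) z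

theorem st_le {E : Type} [MetricSpace E] {f : E → ℝ} (hf : Adm f) (x : E) : st f x ≤ f x := by
  have hn : Nonempty E := ⟨x⟩
  refine ciSup_le fun z => ?_
  have h := hf x z
  linarith

theorem qq_le {E : Type} [MetricSpace E] {f : E → ℝ} (hf : Adm f) (x : E) : qq f x ≤ f x := by
  have h := st_le hf x
  unfold qq
  linarith

theorem adm_qq {E : Type} [MetricSpace E] {f : E → ℝ} (hf : Adm f) : Adm (qq f) := by
  intro x y
  have h1 := le_st hf x y
  have h2 := le_st hf y x
  rw [dist_comm y x] at h2
  unfold qq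
  linarith

/-- **STA** -/
theorem sta : StaStmt := by
  intro E _ f hf
  refine ⟨le_st hf, st_le hf, adm_qq hf, qq_le hf, fun x => ?_⟩
  have h1 : st f x ≤ st (qq f) x := by
    refine ciSup_mono (bdd (adm_qq hf) x) fun z => ?_
    have h := qq_le hf z
    linarith
  have h2 : qq f x = (f x + st f x) / 2 := rfl
  linarith

end Pool.Agent.TFJ.H77
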